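import Mathlib
import Pool.Agent.H309R2.AP3.Check

/-!
From a certificate to large peelable sets.
-/

namespace Pool.Agent.H309R2.AP3

open Finset

set_option linter.unusedSectionVars false
set_option linter.unusedVariables false

section pos
variable {H : ℕ} {t nu : ℕ → ℕ}

lemma kz1_pos (hH : 2 ≤ H) (ht1 : ∀ a, 1 ≤ t a) (n i : ℕ) (hi : 1 ≤ i) :
    1 ≤ (kz H t nu n).1 i := by
  induction n generalizing i with
  | zero => simp [kz, hi]
  | succ n ih =>
    have h1 := ih (t 0) (ht1 0)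
    have h2 : (kz H t nu n).1 (t 0) ≤ ∑ a ∈ range (min i H), (kz H t nu n).1 (t a) :=
      single_le_sum (f := fun a => (kz H t nu n).1 (t a)) (fun _ _ => Nat.zero_le _)
        (mem_range.2 (by omega))
    have h3 : (kz H t nu (n + 1)).1 i = opK H t nu (kz H t nu n).1 (kz H t nu n).2 i := rfl
    rw [h3, opK]
    omega

lemma kz2_pos1 (hH : 2 ≤ H) (ht1 : ∀ a, 1 ≤ t a) (n j : ℕ) (hj : j < 2 * H) :
    1 ≤ (kz H t nu (n + 1)).2 j := by
  have h1 := kz1_pos (nu := nu) hH ht1 n (t ((j - H) / 2)) (ht1 _)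
  have h2 : (kz H t nu n).1 (t (0 + (j - H) / 2)) ≤
      ∑ a ∈ range (H - (j - H)), (kz H t nu n).1 (t (a + (j - H) / 2)) :=
    single_le_sum (f := fun a => (kz H t nu n).1 (t (a + (j - H) / 2))) (fun _ _ => Nat.zero_le _)
      (mem_range.2 (by omega))
  have h3 : (kz H t nu (n + 1)).2 j =
      opZ H t nu (kz H t nu n).1 (kz H t nu n).2 (j - H) := by
    rw [kz, opKZ]
    simp only
    rw [if_pos (by omega)]
  rw [zero_add] at h2
  rw [h3, opZ]
  omega

lemma kz2_pos2 (hH : 2 ≤ H) (ht1 : ∀ a, 1 ≤ t a) (hn0 : nu 0 < 2 * H) (n : ℕ) :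
    1 ≤ (kz H t nu (n + 2)).2 (2 * H) := by
  have h1 := kz2_pos1 (nu := nu) hH ht1 n (nu 0) hn0
  have h2 : (kz H t nu (n + 1)).2 (nu 0) ≤
      ∑ b ∈ range H, (kz H t nu (n + 1)).2 (nu b) :=
    single_le_sum (f := fun b => (kz H t nu (n + 1)).2 (nu b)) (fun _ _ => Nat.zero_le _)
      (mem_range.2 (by omega))
  have h3 : (kz H t nu (n + 2)).2 (2 * H) =
      opZ H t nu (kz H t nu (n + 1)).1 (kz H t nu (n + 1)).2 H := by
    rw [kz, opKZ]
    simp only
    rw [if_pos le_rfl]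
    congr 1; omega
  rw [h3, opZ]
  omega

lemma kz2_posY (n m b : ℕ) (hm : 1 ≤ m) (hmb : m ≤ b) (hb : b < H)
    (h : 1 ≤ (kz H t nu n).2 (nu b)) : 1 ≤ (kz H t nu (n + 1)).2 (2 * H + m) := by
  have h2 : (if m ≤ b then (kz H t nu n).2 (nu b) else 0) ≤
      ∑ b ∈ range H, if m ≤ b then (kz H t nu n).2 (nu b) else 0 :=
    single_le_sum (f := fun b => if m ≤ b then (kz H t nu n).2 (nu b) else 0)
      (fun _ _ => Nat.zero_le _) (mem_range.2 hb)
  rw [if_pos hmb] at h2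
  have h3 : (kz H t nu (n + 1)).2 (2 * H + m) = opY H nu (kz H t nu n).2 m := by
    rw [kz, opKZ]
    simp only
    rw [if_neg (by omega)]
    congr 1; omega
  rw [h3, opY]
  omega

lemma kz2_pos3 (hH : 2 ≤ H) (ht1 : ∀ a, 1 ≤ t a) (hn0 : nu 0 < 2 * H)
    (hn1 : nu (H - 1) < 3 * H) (hn2 : nu (nu (H - 1) - 2 * H) < 2 * H) (j : ℕ) (hj : j < 3 * H) :
    1 ≤ (kz H t nu 3).2 j := by
  rcases Nat.lt_trichotomy j (2 * H) with h | h | h
  · exact kz2_pos1 hH ht1 2 j h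
  · rw [h]; exact kz2_pos2 hH ht1 hn0 1
  · obtain ⟨m, rfl⟩ : ∃ m, j = 2 * H + m := ⟨j - 2 * H, by omega⟩
    refine kz2_posY 2 m (H - 1) (by omega) (by omega) (by omega) ?_
    rcases Nat.lt_trichotomy (nu (H - 1)) (2 * H) with h4 | h4 | h4
    · exact kz2_pos1 hH ht1 1 _ h4
    · rw [h4]; exact kz2_pos2 hH ht1 hn0 0
    · obtain ⟨m', hm'⟩ : ∃ m', nu (H - 1) = 2 * H + m' := ⟨nu (H - 1) - 2 * H, by omega⟩
      rw [hm']
      have e : nu (H - 1) - 2 * H = m' := by omega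
      rw [e] at hn2
      exact kz2_posY 1 m' m' (by omega) le_rfl (by omega) (kz2_pos1 hH ht1 0 _ hn2)

end pos

/-- Large peelable sets for all moduli `2 * (H * q + e) - 1`, growth rate `q * Rn / Rd`. -/
def Good (H Rn Rd : ℕ) : Prop :=
  ∀ (p q e : ℕ) [NeZero p], p + 1 = 2 * (H * q + e) → 1 ≤ q →
    ∃ C : ℕ, ∀ m : ℕ, ∃ S : Finset (Fin (3 + m) → ZMod p), Peel S ∧
      (q * Rn) ^ m ≤ C * Rd ^ m * S.card

theorem Cert.good {H : ℕ} {t nu k z : ℕ → ℕ} {Rn Rd C : ℕ} (hH : 2 ≤ H)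
    (h : Cert H t nu k z Rn Rd C) : Good H Rn Rd := by
  intro p q e _ hp hq
  have hHq : 2 * 1 ≤ H * q := Nat.mul_le_mul hH hq
  set π : Par := ⟨H * q + e - 1, q, H, e, t, nu, by omega, hq, hH, h.hnu⟩ with hπ
  have hp' : p = 2 * π.P + 1 := by
    show p = 2 * (H * q + e - 1) + 1
    omega
  have hgrow := kz_grow (H := H) (t := t) (nu := nu) (w := (k, z)) (Rn := Rn) (Rd := Rd)
    (C := C) (n0 := 3) (fun i => h.h1 i) (fun j => by
      simp only [opKZ]
      split_ifs with hj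
      · rcases Nat.lt_or_ge j H with h5 | h5
        · rw [h.hz0 j h5]
          have : j - H = 0 := by omega
          rw [this]
          exact h.h2 0 (by omega)
        · have e1 : z j = z (H + (j - H)) := by congr 1; omega
          rw [e1]
          exact h.h2 (j - H) (by omega)
      · have e1 : z j = z (2 * H + (j - 2 * H)) := by congr 1; omega
        rw [e1]
        exact h.h3 (j - 2 * H) (by omega))
    (fun i => by
      simp only
      rcases Nat.eq_zero_or_pos i with h5 | h5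
      · rw [h5, h.hk0]; exact Nat.zero_le _
      · calc k i ≤ C * 1 := by rw [mul_one]; exact h.hkC i
          _ ≤ C * (kz H t nu 3).1 i := Nat.mul_le_mul_left _ (kz1_pos hH h.ht1 3 i h5))
    (fun j => by
      simp only
      rcases Nat.lt_or_ge j (3 * H) with h5 | h5
      · calc z j ≤ C * 1 := by rw [mul_one]; exact h.hzC j
          _ ≤ C * (kz H t nu 3).2 j :=
            Nat.mul_le_mul_left _ (kz2_pos3 hH h.ht1 h.hn0 h.hn1 h.hn2 j h5)
      · rw [h.hz3 j h5]; exact Nat.zero_le _)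
  obtain ⟨i, hi⟩ := h.hk1
  refine ⟨C, fun m => ?_⟩
  obtain ⟨hg, -⟩ := hgrow m
  have hc := (card_fam π hp' (3 + m)).1 i
  refine ⟨(fam π hp' (3 + m)).K i, (fam π hp' (3 + m)).hK i, ?_⟩
  have hg' := hg i
  simp only at hg'
  have hc' : q ^ (3 + m) * (kz H t nu (3 + m)).1 i ≤ ((fam π hp' (3 + m)).K i).card := hc
  calc (q * Rn) ^ m = q ^ m * (Rn ^ m * 1) := by rw [mul_pow, mul_one]
    _ ≤ q ^ m * (Rn ^ m * k i) := by gcongr
    _ ≤ q ^ m * (Rd ^ m * C * (kz H t nu (3 + m)).1 i) := Nat.mul_le_mul_left _ hg'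
    _ = C * Rd ^ m * (q ^ m * (kz H t nu (3 + m)).1 i) := by ring
    _ ≤ C * Rd ^ m * (q ^ (3 + m) * (kz H t nu (3 + m)).1 i) := by
        gcongr
        omega
    _ ≤ C * Rd ^ m * ((fam π hp' (3 + m)).K i).card := Nat.mul_le_mul_left _ hc'

theorem good_of_chk {w H t0 c Rn Rd KAP ZET PK PN PO : ℕ} (hH : 2 ≤ H)
    (h : chk w H t0 c Rn Rd KAP ZET PK PN PO = true) : Good H Rn Rd :=
  (Cert_of_chk hH h).good hH

end Pool.Agent.H309R2.AP3
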