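import Mathlib
import Pool.Agent.H309R2.AP3.Peel

/-!
Level sets: from a peelable set to three-term-progression-free sets in high dimension.
-/

namespace Pool.Agent.H309R2.AP3

open Finset

lemma exists_rank {G : Type*} [AddCommGroup G] :
    ∀ (N : ℕ) (S : Finset G), S.card = N → Peel S →
      ∃ ρ : G → ℕ, (∀ x ∈ S, ρ x < N) ∧
        ∀ x ∈ S, ∀ z ∈ S, ∀ y ∈ S, x + z = y + y → x ≠ z → ρ y < max (ρ x) (ρ z) := by
  classical
  intro N
  induction N with
  | zero =>
    intro S hS _
    rw [card_eq_zero] at hS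
    subst hS
    exact ⟨fun _ => 0, by simp, by simp⟩
  | succ N ih =>
    intro S hS hP
    have hne : S.Nonempty := by rw [← card_pos]; omega
    obtain ⟨y0, hy0, hmid⟩ := hP S Subset.rfl hne
    obtain ⟨ρ, hρ1, hρ2⟩ := ih (S.erase y0) (by rw [card_erase_of_mem hy0]; omega)
      (hP.mono (erase_subset _ _))
    refine ⟨fun x => if x = y0 then N else ρ x, ?_, ?_⟩
    · intro x hx
      simp only
      split_ifs with h
      · omega
      · have := hρ1 x (mem_erase.2 ⟨h, hx⟩)
        omega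
    · intro x hx z hz y hy hxz hne
      have hyy : y ≠ y0 := by
        rintro rfl
        exact hne (hmid x hx z hz hxz)
      have hy1 := hρ1 y (mem_erase.2 ⟨hyy, hy⟩)
      simp only [if_neg hyy]
      by_cases hx0 : x = y0
      · rw [if_pos hx0]
        exact lt_max_of_lt_left hy1
      · by_cases hz0 : z = y0
        · rw [if_pos hz0]
          exact lt_max_of_lt_right hy1
        · rw [if_neg hx0, if_neg hz0]
          exact hρ2 x (mem_erase.2 ⟨hx0, hx⟩) z (mem_erase.2 ⟨hz0, hz⟩) y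
            (mem_erase.2 ⟨hyy, hy⟩) hxz hne

variable {p n : ℕ} [NeZero p]

/-- Large level sets of the lifted potential are free of three-term progressions. -/
lemma exists_level (hp : Odd p) {S : Finset (Fin n → ZMod p)} (hS : Peel S) (N : ℕ) :
    ∃ A : Finset (Fin N → Fin n → ZMod p),
      S.card ^ N ≤ (N * 3 ^ S.card + 1) * A.card ∧
      ∀ x ∈ A, ∀ z ∈ A, ∀ y ∈ A, x + z = y + y → x = z := by
  classical
  obtain ⟨ρ, hρ1, hρ2⟩ := exists_rank _ S rfl hS
  set g : (Fin n → ZMod p) → ℕ := fun x => 3 ^ ρ x with hg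
  have hg1 : ∀ x ∈ S, ∀ z ∈ S, ∀ y ∈ S, x + z = y + y → 2 * g y ≤ g x + g z := by
    intro x hx z hz y hy h
    by_cases hxz : x = z
    · subst hxz
      have := two_inj hp h
      subst this
      omega
    · have h1 := hρ2 x hx z hz y hy h hxz
      have h2 : 3 * g y ≤ g x + g z := by
        simp only [hg]
        rcases lt_max_iff.1 h1 with h3 | h3
        · have : 3 ^ (ρ y + 1) ≤ 3 ^ ρ x := Nat.pow_le_pow_right (by norm_num) h3
          rw [pow_succ] at this
          have h5 := Nat.zero_le (3 ^ ρ x)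
          have h6 := Nat.zero_le (3 ^ ρ z)
          omega
        · have : 3 ^ (ρ y + 1) ≤ 3 ^ ρ z := Nat.pow_le_pow_right (by norm_num) h3
          rw [pow_succ] at this
          have h5 := Nat.zero_le (3 ^ ρ x)
          have h6 := Nat.zero_le (3 ^ ρ z)
          omega
      omega
  have hg2 : ∀ x ∈ S, ∀ z ∈ S, ∀ y ∈ S, x + z = y + y → 2 * g y = g x + g z → x = z := by
    intro x hx z hz y hy h heq
    by_contra hxz
    have h1 := hρ2 x hx z hz y hy h hxz
    have h0 : 0 < g y := by simp only [hg]; positivity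
    have h2 : 3 * g y ≤ g x + g z := by
      simp only [hg]
      rcases lt_max_iff.1 h1 with h3 | h3
      · have : 3 ^ (ρ y + 1) ≤ 3 ^ ρ x := Nat.pow_le_pow_right (by norm_num) h3
        rw [pow_succ] at this
        have h5 := Nat.zero_le (3 ^ ρ x)
        have h6 := Nat.zero_le (3 ^ ρ z)
        omega
      · have : 3 ^ (ρ y + 1) ≤ 3 ^ ρ z := Nat.pow_le_pow_right (by norm_num) h3
        rw [pow_succ] at this
        have h5 := Nat.zero_le (3 ^ ρ x)
        have h6 := Nat.zero_le (3 ^ ρ z)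
        omega
    omega
  set B : Finset (Fin N → Fin n → ZMod p) := Fintype.piFinset fun _ => S with hB
  have hBcard : B.card = S.card ^ N := by rw [hB, Fintype.card_piFinset]; simp
  set Φ : (Fin N → Fin n → ZMod p) → ℕ := fun x => ∑ i, g (x i) with hΦ
  have hmaps : ∀ x ∈ B, Φ x ∈ range (N * 3 ^ S.card + 1) := by
    intro x hx
    rw [hB, Fintype.mem_piFinset] at hx
    rw [mem_range, Nat.lt_succ_iff]
    calc Φ x ≤ ∑ _i : Fin N, 3 ^ S.card := by
          apply sum_le_sum
          intro i _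
          exact Nat.pow_le_pow_right (by norm_num) (hρ1 _ (hx i)).le
      _ = N * 3 ^ S.card := by simp
  have hsum : B.card = ∑ c ∈ range (N * 3 ^ S.card + 1), (B.filter fun x => Φ x = c).card :=
    card_eq_sum_card_fiberwise hmaps
  obtain ⟨c, _, hc⟩ : ∃ c ∈ range (N * 3 ^ S.card + 1),
      S.card ^ N ≤ (N * 3 ^ S.card + 1) * (B.filter fun x => Φ x = c).card := by
    by_contra hcon
    push Not at hcon
    have h2 : ∑ c ∈ range (N * 3 ^ S.card + 1),
        (N * 3 ^ S.card + 1) * (B.filter fun x => Φ x = c).card <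
        ∑ _c ∈ range (N * 3 ^ S.card + 1), S.card ^ N :=
      sum_lt_sum_of_nonempty ⟨0, by simp⟩ hcon
    rw [← mul_sum, ← hsum, hBcard, sum_const, card_range, smul_eq_mul] at h2
    exact lt_irrefl _ h2
  refine ⟨B.filter fun x => Φ x = c, hc, ?_⟩
  intro x hx z hz y hy hxz
  rw [mem_filter, hB, Fintype.mem_piFinset] at hx hz hy
  have hi : ∀ i, x i + z i = y i + y i := fun i => congrFun hxz i
  have hle : ∀ i ∈ (univ : Finset (Fin N)), 2 * g (y i) ≤ g (x i) + g (z i) := fun i _ =>
    hg1 _ (hx.1 i) _ (hz.1 i) _ (hy.1 i) (hi i)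
  have hsum2 : ∑ i, 2 * g (y i) = ∑ i, (g (x i) + g (z i)) := by
    rw [← mul_sum, sum_add_distrib]
    have h1 : ∑ i, g (x i) = c := hx.2
    have h2 : ∑ i, g (z i) = c := hz.2
    have h3 : ∑ i, g (y i) = c := hy.2
    rw [h1, h2, h3]; ring
  have heq := (sum_eq_sum_iff_of_le hle).1 hsum2
  funext i
  exact hg2 _ (hx.1 i) _ (hz.1 i) _ (hy.1 i) (hi i) (heq i (mem_univ i))

/-- The same in `(ZMod p)^(N * n)`. -/
lemma exists_level' (hp : Odd p) {S : Finset (Fin n → ZMod p)} (hS : Peel S) (N : ℕ) :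
    ∃ A : Finset (Fin (N * n) → ZMod p),
      S.card ^ N ≤ (N * 3 ^ S.card + 1) * A.card ∧
      ∀ x ∈ A, ∀ z ∈ A, ∀ y ∈ A, x + z = y + y → x = z := by
  classical
  obtain ⟨A, hA1, hA2⟩ := exists_level hp hS N
  let φ : (Fin N → Fin n → ZMod p) → (Fin (N * n) → ZMod p) := fun x i =>
    x (finProdFinEquiv.symm i).1 (finProdFinEquiv.symm i).2
  have hinj : Function.Injective φ := by
    intro x z h
    funext i j
    have := congrFun h (finProdFinEquiv (i, j))
    simpa only [φ, Equiv.symm_apply_apply] using this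
  refine ⟨A.image φ, ?_, ?_⟩
  · rw [card_image_of_injective _ hinj]; exact hA1
  · intro x hx z hz y hy hxz
    rw [mem_image] at hx hz hy
    obtain ⟨x, hx, rfl⟩ := hx
    obtain ⟨z, hz, rfl⟩ := hz
    obtain ⟨y, hy, rfl⟩ := hy
    congr 1
    apply hA2 x hx z hz y hy
    apply hinj
    exact hxz

end Pool.Agent.H309R2.AP3
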