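import Mathlib
import Pool.Agent.H309R2.AP3.Data1
import Pool.Agent.H309R2.AP3.Data2
import Pool.Agent.H309R2.AP3.Data3

/-! Table of certificates. -/

namespace Pool.Agent.H309R2.AP3

theorem good_all (H : ℕ) (h1 : 4 ≤ H) (h2 : H < 172) : Good H (1138 * H - 420) 1000 := by
  interval_cases H
  · exact good_4
  · exact good_5
  · exact good_6
  · exact good_7
  · exact good_8
  · exact good_9
  · exact good_10
  · exact good_11
  · exact good_12
  · exact good_13
  · exact good_14
  · exact good_15
  · exact good_16
  · exact good_17
  · exact good_18
  · exact good_19
  · exact good_20
  · exact good_21
  · exact good_22
  · exact good_23
  · exact good_24
  · exact good_25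
  · exact good_26
  · exact good_27
  · exact good_28
  · exact good_29
  · exact good_30
  · exact good_31
  · exact good_32
  · exact good_33
  · exact good_34
  · exact good_35
  · exact good_36
  · exact good_37
  · exact good_38
  · exact good_39
  · exact good_40
  · exact good_41
  · exact good_42
  · exact good_43
  · exact good_44
  · exact good_45
  · exact good_46
  · exact good_47
  · exact good_48
  · exact good_49
  · exact good_50
  · exact good_51
  · exact good_52
  · exact good_53
  · exact good_54
  · exact good_55
  · exact good_56
  · exact good_57
  · exact good_58
  · exact good_59
  · exact good_60
  · exact good_61
  · exact good_62
  · exact good_63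
  · exact good_64
  · exact good_65
  · exact good_66
  · exact good_67
  · exact good_68
  · exact good_69
  · exact good_70
  · exact good_71
  · exact good_72
  · exact good_73
  · exact good_74
  · exact good_75
  · exact good_76
  · exact good_77
  · exact good_78
  · exact good_79
  · exact good_80
  · exact good_81
  · exact good_82
  · exact good_83
  · exact good_84
  · exact good_85
  · exact good_86
  · exact good_87
  · exact good_88
  · exact good_89
  · exact good_90
  · exact good_91
  · exact good_92
  · exact good_93
  · exact good_94
  · exact good_95
  · exact good_96
  · exact good_97
  · exact good_98
  · exact good_99
  · exact good_100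
  · exact good_101
  · exact good_102
  · exact good_103
  · exact good_104
  · exact good_105
  · exact good_106
  · exact good_107
  · exact good_108
  · exact good_109
  · exact good_110
  · exact good_111
  · exact good_112
  · exact good_113
  · exact good_114
  · exact good_115
  · exact good_116
  · exact good_117
  · exact good_118
  · exact good_119
  · exact good_120
  · exact good_121
  · exact good_122
  · exact good_123
  · exact good_124
  · exact good_125
  · exact good_126
  · exact good_127
  · exact good_128
  · exact good_129
  · exact good_130
  · exact good_131
  · exact good_132
  · exact good_133
  · exact good_134
  · exact good_135
  · exact good_136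
  · exact good_137
  · exact good_138
  · exact good_139
  · exact good_140
  · exact good_141
  · exact good_142
  · exact good_143
  · exact good_144
  · exact good_145
  · exact good_146
  · exact good_147
  · exact good_148
  · exact good_149
  · exact good_150
  · exact good_151
  · exact good_152
  · exact good_153
  · exact good_154
  · exact good_155
  · exact good_156
  · exact good_157
  · exact good_158
  · exact good_159
  · exact good_160
  · exact good_161
  · exact good_162
  · exact good_163
  · exact good_164
  · exact good_165
  · exact good_166
  · exact good_167
  · exact good_168
  · exact good_169
  · exact good_170
  · exact good_171

end Pool.Agent.H309R2.AP3
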